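import Pool.Agent.Helper58.VF.APP

/-!
# Composition of minors: from a Cayley graph of a subgroup to the Cayley graph of the group
-/

set_option autoImplicit false

namespace Pool.Agent.Helper12.WM

open Pool.Agent.Helper58.VF

universe u v

/-- The edges of `cay T` come from edges of `cay S` between the fibres. -/
theorem edge {Γ : Type u} [Group Γ] {S : Set Γ} (D : Subgroup Γ) (T : Set D) (π : Γ → D)
    (hT : ∀ g : D, ∀ t ∈ T, ∃ x y, π x = g ∧ π y = g * t ∧ (cay S).Adj x y) {a b : D}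
    (h : (cay T).Adj a b) : ∃ x y, π x = a ∧ π y = b ∧ (cay S).Adj x y := by
  rcases (cay_adj.1 h).2 with h | h
  · obtain ⟨x, y, hx, hy, hxy⟩ := hT a _ h
    exact ⟨x, y, hx, by rw [hy, mul_inv_cancel_left], hxy⟩
  · obtain ⟨x, y, hx, hy, hxy⟩ := hT b _ h
    exact ⟨y, x, by rw [hy, mul_inv_cancel_left], hx, hxy.symm⟩

theorem comp {Γ : Type u} [Group Γ] {S : Set Γ} (D : Subgroup Γ) (T : Set D) (π : Γ → D)
    (hf : ∀ g, ((cay S).induce {x | π x = g}).Connected)
    (hT : ∀ g : D, ∀ t ∈ T, ∃ x y, π x = g ∧ π y = g * t ∧ (cay S).Adj x y)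
    {V : Type v} {H : SimpleGraph V} (φ : V → Set D)
    (g1 : ∀ i, ((cay T).induce (φ i)).Connected) (g2 : ∀ i j, i ≠ j → Disjoint (φ i) (φ j))
    (g3 : ∀ i j, H.Adj i j → ∃ a ∈ φ i, ∃ b ∈ φ j, (cay T).Adj a b) :
    (∀ i, ((cay S).induce {x | π x ∈ φ i}).Connected) ∧
    (∀ i j, i ≠ j → Disjoint {x | π x ∈ φ i} {x | π x ∈ φ j}) ∧
    (∀ i j, H.Adj i j → ∃ a ∈ {x | π x ∈ φ i}, ∃ b ∈ {x | π x ∈ φ j}, (cay S).Adj a b) := by
  refine ⟨?_, ?_, ?_⟩
  · intro i
    -- inside a fibre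
    have hfib : ∀ x y : {x | π x ∈ φ i}, π x.1 = π y.1 →
        ((cay S).induce {x | π x ∈ φ i}).Reachable x y := by
      intro x y hxy
      let e : (cay S).induce {z | π z = π x.1} →g (cay S).induce {z | π z ∈ φ i} :=
        { toFun := fun z => ⟨z.1, by
            have h1 : π z.1 = π x.1 := z.2
            have h2 : π x.1 ∈ φ i := x.2
            change π z.1 ∈ φ i
            rw [h1]; exact h2⟩
          map_rel' := fun {a b} h => h }
      have h := (hf (π x.1)).preconnected ⟨x.1, rfl⟩ ⟨y.1, hxy.symm⟩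
      exact h.map e
    have key : ∀ (a b : φ i) (q : ((cay T).induce (φ i)).Walk a b) (x y : {x | π x ∈ φ i}),
        π x.1 = a.1 → π y.1 = b.1 → ((cay S).induce {x | π x ∈ φ i}).Reachable x y := by
      intro a b q
      induction q with
      | nil => intro x y hx hy; exact hfib x y (hx.trans hy.symm)
      | @cons a c b hadj q ih =>
        intro x y hx hy
        obtain ⟨x', y', hx', hy', hxy'⟩ := edge D T π hT (a := a.1) (b := c.1) hadj
        have hx'm : π x' ∈ φ i := by rw [hx']; exact a.2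
        have hy'm : π y' ∈ φ i := by rw [hy']; exact c.2
        have r1 := hfib x ⟨x', hx'm⟩ (hx.trans hx'.symm)
        have r2 : ((cay S).induce {x | π x ∈ φ i}).Reachable ⟨x', hx'm⟩ ⟨y', hy'm⟩ :=
          SimpleGraph.Adj.reachable hxy'
        exact (r1.trans r2).trans (ih ⟨y', hy'm⟩ y hy' hy)
    obtain ⟨a0⟩ := (g1 i).nonempty
    obtain ⟨x0, hx0⟩ := (hf a0.1).nonempty
    have hne : Nonempty {x | π x ∈ φ i} := ⟨⟨x0, by
      have h1 : π x0 = a0.1 := hx0
      change π x0 ∈ φ i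
      rw [h1]; exact a0.2⟩⟩
    refine SimpleGraph.Connected.mk ?_
    intro x y
    obtain ⟨q⟩ := (g1 i).preconnected ⟨π x.1, x.2⟩ ⟨π y.1, y.2⟩
    exact key _ _ q x y rfl rfl
  · intro i j hij
    rw [Set.disjoint_left]
    intro x hx hx'
    exact Set.disjoint_left.1 (g2 i j hij) hx hx'
  · intro i j hij
    obtain ⟨a, ha, b, hb, hab⟩ := g3 i j hij
    obtain ⟨x, y, hx, hy, hxy⟩ := edge D T π hT hab
    refine ⟨x, ?_, y, ?_, hxy⟩
    · change π x ∈ φ i
      rw [hx]; exact ha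
    · change π y ∈ φ j
      rw [hy]; exact hb

end Pool.Agent.Helper12.WM
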